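import Mathlib
import Pool.Agent.H590.NL.Stm

/-!
# NL590, AD: algebra of `D` and its parts
-/

set_option autoImplicit false

noncomputable section

open MeasureTheory Filter Topology Set
open scoped BigOperators

namespace Pool.Agent.H100.NL

open H590NL

section
variable {n : ℕ} {κ : Type} [Fintype κ]

/-- the terms of `DD` with weights one -/
def WW (p : ℝ) (v : κ → V n) (x : V n) (f : Fin n → κ) : ℝ :=
  (dm v f).det ^ 2 * ∏ i, (p * |ip (v (f i)) x| ^ (p - 2))

omit [Fintype κ] in
theorem WW_nonneg {p : ℝ} (hp : 1 < p) (v : κ → V n) (x : V n) (f : Fin n → κ) :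
    0 ≤ WW p v x f := by
  unfold WW
  refine mul_nonneg (sq_nonneg _) (Finset.prod_nonneg fun i _ => ?_)
  exact mul_nonneg (by linarith) (Real.rpow_nonneg (abs_nonneg _) _)

theorem DD_one (p : ℝ) (v : κ → V n) (x : V n) :
    DD p v one x = (1 / (n.factorial : ℝ)) * ∑ f : Fin n → κ, WW p v x f := by
  unfold DD WW one
  simp only [mul_one]

omit [Fintype κ] in
theorem cnt_nonneg (f : Fin n → κ) (k : κ) : 0 ≤ cnt f k := by
  unfold cnt
  refine Finset.sum_nonneg fun i _ => ?_
  split_ifs <;> norm_num

theorem sum_cnt (f : Fin n → κ) : ∑ k, cnt f k = (n : ℝ) := by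
  classical
  unfold cnt
  rw [Finset.sum_comm]
  have h : ∀ i : Fin n, ∑ k : κ, (if f i = k then (1 : ℝ) else 0) = 1 := by
    intro i
    rw [Finset.sum_ite_eq]
    simp
  have h2 : ∀ i : Fin n, (∑ k : κ, @ite ℝ (f i = k) (Classical.propDecidable _) 1 0) = 1 := by
    intro i
    refine Eq.trans ?_ (h i)
    refine Finset.sum_congr rfl fun k _ => ?_
    split_ifs <;> rfl
  calc (∑ i : Fin n, ∑ k : κ, @ite ℝ (f i = k) (Classical.propDecidable _) 1 0)
      = ∑ _i : Fin n, (1 : ℝ) := Finset.sum_congr rfl fun i _ => h2 i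
    _ = n := by simp

omit [Fintype κ] in
theorem inj_of_det (v : κ → V n) (f : Fin n → κ) (h : (dm v f).det ≠ 0) :
    Function.Injective f := by
  intro i j hij
  by_contra hne
  exact h (Matrix.det_zero_of_row_eq hne (by
    unfold dm
    funext l
    simp only [Matrix.of_apply, hij]))

omit [Fintype κ] in
/-- for injective `f` the product of the bumped weights -/
theorem prod_bu (f : Fin n → κ) (hf : Function.Injective f) (k : κ) (y : ℝ) :
    cnt f k ≤ 1 ∧ ∏ i, bu k y (f i) = 1 + y * cnt f k := by
  classical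
  by_cases h : ∃ i0, f i0 = k
  · obtain ⟨i0, h0⟩ := h
    have hne : ∀ i, i ≠ i0 → f i ≠ k := fun i hi hk => hi (hf (hk.trans h0.symm))
    have hc : cnt f k = 1 := by
      unfold cnt
      rw [Finset.sum_eq_single i0]
      · rw [if_pos h0]
      · intro i _ hi
        rw [if_neg (hne i hi)]
      · intro hi
        exact absurd (Finset.mem_univ i0) hi
    have hp : ∏ i, bu k y (f i) = 1 + y := by
      rw [Finset.prod_eq_single i0]
      · unfold bu
        rw [h0, Function.update_self]
      · intro i _ hi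
        unfold bu
        rw [Function.update_of_ne (hne i hi)]
      · intro hi
        exact absurd (Finset.mem_univ i0) hi
    rw [hc, hp]
    exact ⟨le_refl _, by ring⟩
  · have hne : ∀ i, f i ≠ k := fun i hi => h ⟨i, hi⟩
    have hc : cnt f k = 0 := by
      unfold cnt
      refine Finset.sum_eq_zero fun i _ => ?_
      rw [if_neg (hne i)]
    have hp : ∏ i, bu k y (f i) = 1 := by
      refine Finset.prod_eq_one fun i _ => ?_
      unfold bu
      rw [Function.update_of_ne (hne i)]
    rw [hc, hp]
    exact ⟨by norm_num, by ring⟩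

theorem Ph_bu (p : ℝ) (v : κ → V n) (x : V n) (k : κ) (y : ℝ) :
    Ph p v (bu k y) x = Ph p v one x + y * tau p v k x := by
  classical
  unfold Ph tau
  have h : ∀ j : κ, bu k y j * |ip (v j) x| ^ p =
      one j * |ip (v j) x| ^ p + (if j = k then y * |ip (v k) x| ^ p else 0) := by
    intro j
    unfold bu one
    by_cases hj : j = k
    · subst hj
      rw [Function.update_self, if_pos rfl]
      ring
    · rw [Function.update_of_ne hj, if_neg hj]
      ring
  rw [Finset.sum_congr rfl fun j _ => h j, Finset.sum_add_distrib, Finset.sum_ite_eq']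
  simp

theorem DD_bu (p : ℝ) (v : κ → V n) (x : V n) (k : κ) (y : ℝ) :
    DD p v (bu k y) x = DD p v one x +
      y * ((1 / (n.factorial : ℝ)) * ∑ f : Fin n → κ, cnt f k * WW p v x f) := by
  rw [DD_one]
  have h : ∀ f : Fin n → κ, (dm v f).det ^ 2 *
      ∏ i, (p * bu k y (f i) * |ip (v (f i)) x| ^ (p - 2)) =
      WW p v x f + y * (cnt f k * WW p v x f) := by
    intro f
    have h1 : ∏ i, (p * bu k y (f i) * |ip (v (f i)) x| ^ (p - 2)) =
        (∏ i, (p * |ip (v (f i)) x| ^ (p - 2))) * ∏ i, bu k y (f i) := by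
      rw [← Finset.prod_mul_distrib]
      exact Finset.prod_congr rfl fun i _ => by ring
    rw [h1]
    by_cases hd : (dm v f).det = 0
    · unfold WW
      rw [hd]
      ring
    · rw [(prod_bu f (inj_of_det v f hd) k y).2]
      unfold WW
      ring
  unfold DD
  rw [Finset.sum_congr rfl fun f _ => h f, Finset.sum_add_distrib, ← Finset.mul_sum]
  ring

theorem G1_eq (p : ℝ) (v : κ → V n) (k : κ) (x : V n) :
    G1 p v k x = Real.exp (-(Ph p v one x)) *
      ((1 / (n.factorial : ℝ)) * ∑ f : Fin n → κ, cnt f k * WW p v x f) := by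
  unfold G1 WW
  rfl

end

theorem AD : S_AD := by
  intro n κ _ p hp1 hp2 v x
  have hfac : (0 : ℝ) ≤ 1 / (n.factorial : ℝ) := by positivity
  have hexp : 0 ≤ Real.exp (-(Ph p v one x)) := (Real.exp_pos _).le
  refine ⟨?_, ?_, ?_, ?_⟩
  · rw [DD_one]
    exact mul_nonneg hfac (Finset.sum_nonneg fun f _ => WW_nonneg hp1 v x f)
  · intro k
    rw [G1_eq]
    exact mul_nonneg hexp (mul_nonneg hfac (Finset.sum_nonneg fun f _ =>
      mul_nonneg (cnt_nonneg f k) (WW_nonneg hp1 v x f)))
  · have h1 : ∑ k, G1 p v k x = Real.exp (-(Ph p v one x)) *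
        ((1 / (n.factorial : ℝ)) * ∑ k, ∑ f : Fin n → κ, cnt f k * WW p v x f) := by
      rw [Finset.mul_sum, Finset.mul_sum]
      exact Finset.sum_congr rfl fun k _ => G1_eq p v k x
    have h2 : ∑ k, ∑ f : Fin n → κ, cnt f k * WW p v x f =
        (n : ℝ) * ∑ f : Fin n → κ, WW p v x f := by
      rw [Finset.sum_comm, Finset.mul_sum]
      refine Finset.sum_congr rfl fun f _ => ?_
      rw [← Finset.sum_mul, sum_cnt]
    rw [h1, h2, DD_one]
    ring
  · intro k
    refine ⟨?_, ?_, ?_⟩
    · rw [G1_eq, DD_one]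
      refine mul_le_mul_of_nonneg_left (mul_le_mul_of_nonneg_left
        (Finset.sum_le_sum fun f _ => ?_) hfac) hexp
      by_cases hd : (dm v f).det = 0
      · have h0 : WW p v x f = 0 := by
          unfold WW
          rw [hd]
          ring
        rw [h0, mul_zero]
      · have h1 := (prod_bu f (inj_of_det v f hd) k 0).1
        calc cnt f k * WW p v x f ≤ 1 * WW p v x f :=
              mul_le_mul_of_nonneg_right h1 (WW_nonneg hp1 v x f)
          _ = WW p v x f := one_mul _
    · intro hp hτ
      have hz : |ip (v k) x| = 0 := by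
        unfold tau at hτ
        exact (Real.rpow_eq_zero (abs_nonneg _) (by linarith)).mp hτ
      have hz2 : |ip (v k) x| ^ (p - 2) = 0 := by
        rw [hz]
        exact Real.zero_rpow (by linarith)
      rw [G1_eq]
      have hs : ∑ f : Fin n → κ, cnt f k * WW p v x f = 0 := by
        refine Finset.sum_eq_zero fun f _ => ?_
        by_cases h : ∃ i0, f i0 = k
        · obtain ⟨i0, h0⟩ := h
          have hprod : ∏ i, (p * |ip (v (f i)) x| ^ (p - 2)) = 0 := by
            refine Finset.prod_eq_zero (Finset.mem_univ i0) ?_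
            rw [h0, hz2, mul_zero]
          unfold WW
          rw [hprod]
          ring
        · have hc : cnt f k = 0 := by
            unfold cnt
            refine Finset.sum_eq_zero fun i _ => ?_
            rw [if_neg (fun hi => h ⟨i, hi⟩)]
          rw [hc, zero_mul]
      rw [hs]
      ring
    · intro y
      refine ⟨Ph_bu p v x k y, ?_⟩
      rw [Ph_bu, DD_bu, G1_eq, neg_add, Real.exp_add]
      ring

end Pool.Agent.H100.NL
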