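import Pool.Agent.H717.NL.Stmts2
import Pool.Graph.R_seed8.Helper693.Tri.TG4

set_option autoImplicit false

/-!
# NL717 TRANS and BOUND (helper100)

The characteristic polynomial of a Hermitian tridiagonal matrix is a continuant; its roots are
bounded by the norm.
-/

open Polynomial

namespace Pool.Agent.H100.NL

open Pool.Agent.H717.NL Pool.Agent.TridiagGap

/-- the entries of the perturbed matrix -/
noncomputable def pe {n : ℕ} (A : Matrix (Fin n) (Fin n) ℂ) (e : Fin n → ℝ) (i j : ℕ) : ℂ :=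
  entry A i j + if i = j then ((ext e j : ℝ) : ℂ) else 0

theorem blk_pe {n : ℕ} (A : Matrix (Fin n) (Fin n) ℂ) (e : Fin n → ℝ) :
    A + Matrix.diagonal (fun j => (e j : ℂ)) = blk (pe A e) 0 n := by
  ext i j
  rw [Matrix.add_apply, Matrix.diagonal_apply]
  unfold blk pe entry Pool.Agent.H717.NL.ext
  rw [Matrix.of_apply]
  simp only [zero_add, i.2, j.2, and_self, dite_true, Fin.eta, Fin.ext_iff]
  congr 1
  split_ifs with h
  · have : i = j := Fin.ext h
    rw [this]
  · rfl

theorem entry_conj {n : ℕ} {A : Matrix (Fin n) (Fin n) ℂ} (hA : A.IsHermitian) (i j : ℕ) :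
    entry A j i = (starRingEnd ℂ) (entry A i j) := by
  unfold entry
  by_cases h : i < n ∧ j < n
  · rw [dif_pos h, dif_pos h.symm]
    exact (hA.apply _ _).symm
  · rw [dif_neg h, dif_neg (fun h2 => h h2.symm), map_zero]

theorem entry_tri {n : ℕ} {A : Matrix (Fin n) (Fin n) ℂ} (hA : IsTridiagonal A) (i j : ℕ)
    (h : i + 1 < j ∨ j + 1 < i) : entry A i j = 0 := by
  unfold entry
  split_ifs with h2
  · exact hA _ _ h
  · rfl

theorem pe_tri {n : ℕ} {A : Matrix (Fin n) (Fin n) ℂ} (hA : IsTridiagonal A) (e : Fin n → ℝ)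
    (i j : ℕ) (h : i + 1 < j ∨ j + 1 < i) : pe A e i j = 0 := by
  unfold pe
  rw [entry_tri hA i j h, if_neg (by omega), add_zero]

theorem pe_diag {n : ℕ} {A : Matrix (Fin n) (Fin n) ℂ} (hA : A.IsHermitian) (e : Fin n → ℝ)
    (j : ℕ) : pe A e j j = (((entry A j j).re + ext e j : ℝ) : ℂ) := by
  unfold pe
  rw [if_pos rfl]
  have h := entry_conj hA j j
  have h2 := Complex.conj_eq_iff_re.1 h.symm
  rw [Complex.ofReal_add, h2]

theorem pe_off {n : ℕ} {A : Matrix (Fin n) (Fin n) ℂ} (hA : A.IsHermitian) (e : Fin n → ℝ)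
    (j : ℕ) : pe A e j (j + 1) * pe A e (j + 1) j =
      (((entry A j (j + 1)).re ^ 2 + (entry A j (j + 1)).im ^ 2 : ℝ) : ℂ) := by
  unfold pe
  rw [if_neg (by omega), if_neg (by omega), add_zero, add_zero, entry_conj hA j (j + 1),
    Complex.mul_conj, Complex.normSq_apply]
  congr 1
  ring

theorem charpoly_cont {n : ℕ} {A : Matrix (Fin n) (Fin n) ℂ} (hA : A.IsHermitian)
    (hT : IsTridiagonal A) (e : Fin n → ℝ) : ∀ m : ℕ, (blk (pe A e) 0 m).charpoly =
      (cont (fun j => (entry A j j).re + ext e j)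
        (fun j => (entry A j (j + 1)).re ^ 2 + (entry A j (j + 1)).im ^ 2) m).map
          (algebraMap ℝ ℂ)
  | 0 => by
    unfold cont
    rw [Polynomial.map_one]
    exact Matrix.det_isEmpty
  | 1 => by
    unfold cont
    rw [Polynomial.map_sub, map_X, map_C, Matrix.charpoly, Matrix.det_fin_one,
      Matrix.charmatrix_apply_eq]
    unfold blk
    rw [Matrix.of_apply]
    have h := pe_diag hA e 0
    simp only [Fin.val_zero, add_zero]
    rw [h]
    rfl
  | m + 2 => by
    rw [charpoly_blk_succ_succ (pe A e) (fun i j h => pe_tri hT e i j (Or.inl h))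
      (fun i j h => pe_tri hT e i j (Or.inr h)) 0 m, charpoly_cont hA hT e (m + 1),
      charpoly_cont hA hT e m, zero_add, pe_diag hA, pe_off hA]
    conv_rhs => rw [cont]
    rw [Polynomial.map_sub, Polynomial.map_mul, Polynomial.map_mul, Polynomial.map_sub, map_X,
      map_C, map_C]
    rfl

theorem t_trans : S_trans := by
  intro n A e hA hT
  rw [blk_pe]
  exact charpoly_cont hA hT e n

open scoped Matrix.Norms.L2Operator in
theorem t_bound : S_bound := by
  intro n A e δ x hδ he hx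
  have h1 : (x : ℂ) ∈ spectrum ℂ (A + Matrix.diagonal fun j => (e j : ℂ)) :=
    Matrix.mem_spectrum_iff_isRoot_charpoly.2 hx
  have h2 := spectrum.norm_le_norm_mul_of_mem h1
  rw [Complex.norm_real, Real.norm_eq_abs] at h2
  have h3 : ‖(1 : Matrix (Fin n) (Fin n) ℂ)‖ ≤ 1 := by
    rw [← Matrix.diagonal_one, Matrix.l2_opNorm_diagonal]
    refine (pi_norm_le_iff_of_nonneg zero_le_one).2 fun i => ?_
    simp
  have h4 : ‖Matrix.diagonal fun j => (e j : ℂ)‖ ≤ δ := by
    rw [Matrix.l2_opNorm_diagonal]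
    refine (pi_norm_le_iff_of_nonneg hδ).2 fun i => ?_
    rw [Complex.norm_real, Real.norm_eq_abs]
    exact he i
  have h5 := norm_add_le A (Matrix.diagonal fun j => (e j : ℂ))
  have h6 : ‖A + Matrix.diagonal fun j => (e j : ℂ)‖ * ‖(1 : Matrix (Fin n) (Fin n) ℂ)‖ ≤
      ‖A + Matrix.diagonal fun j => (e j : ℂ)‖ * 1 :=
    mul_le_mul_of_nonneg_left h3 (norm_nonneg _)
  linarith

end Pool.Agent.H100.NL
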